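import Pool.Agent.H74.OLP.Targets

/-!
# Extension of a potential from base points (row EXT of olp_modules)
-/

set_option autoImplicit false

open Pool.Agent.H74.OLP

namespace Pool.Agent.H42.OLP

theorem pf_EXT : T_EXT := by
  classical
  intro F T D ι p γ t hS h
  have hval : ∀ x, ∃ v : R, x ∈ Nb T t (Set.range p) → ∃ (a : ι) (Q : T.Walk (p a) x),
      Q.length ≤ t ∧ v = γ a + ws T D Q := by
    intro x
    by_cases hx : x ∈ Nb T t (Set.range p)
    · obtain ⟨s, ⟨a, rfl⟩, Q, hQ⟩ := hx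
      exact ⟨γ a + ws T D Q, fun _ => ⟨a, Q, hQ, rfl⟩⟩
    · exact ⟨0, fun h => absurd h hx⟩
  choose g hg using hval
  refine ⟨g, fun x hx y hy hxy => ?_, fun b => ?_⟩
  · obtain ⟨a, P, hP, hPv⟩ := hg x hx
    obtain ⟨b, Q, hQ, hQv⟩ := hg y hy
    have h1 := h a b ((P.append (SimpleGraph.Walk.cons hxy SimpleGraph.Walk.nil)).append
      Q.reverse) (by
        rw [SimpleGraph.Walk.length_append, SimpleGraph.Walk.length_append,
          SimpleGraph.Walk.length_cons, SimpleGraph.Walk.length_nil,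
          SimpleGraph.Walk.length_reverse]
        omega)
    rw [ws_append, ws_append, ws_cons, ws_nil, ws_reverse T hS] at h1
    rw [hPv, hQv]
    linear_combination h1 - R2 (ws T D P) - R2 (ws T D Q)
  · have hx : p b ∈ Nb T t (Set.range p) :=
      ⟨p b, ⟨b, rfl⟩, SimpleGraph.Walk.nil, Nat.zero_le _⟩
    obtain ⟨a, Q, hQ, hQv⟩ := hg (p b) hx
    have h1 := h a b Q (by omega)
    rw [hQv, h1]
    linear_combination R2 (γ a)

end Pool.Agent.H42.OLP
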