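import Pool.Agent.H74.OLP.Targets

/-!
# Existence of potentials (row POT of olp_modules)
-/

set_option autoImplicit false

open Pool.Agent.H74.OLP

namespace Pool.Agent.H42.OLP

theorem pf_POT : T_POT := by
  classical
  intro F T D X hS hN
  obtain ⟨Q, hQ⟩ : ∃ Q : F → F → Prop, ∀ x y, Q x y ↔
      ∃ p : T.Walk x y, ∀ z ∈ p.support, z ∈ X := ⟨_, fun _ _ => Iff.rfl⟩
  have hsymm : ∀ x y, Q x y → Q y x := by
    intro x y h
    obtain ⟨p, hp⟩ := (hQ x y).1 h
    refine (hQ y x).2 ⟨p.reverse, fun z hz => hp z ?_⟩
    rwa [SimpleGraph.Walk.support_reverse, List.mem_reverse] at hz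
  have htrans : ∀ x y z, Q x y → Q y z → Q x z := by
    intro x y z h1 h2
    obtain ⟨p, hp⟩ := (hQ x y).1 h1
    obtain ⟨q, hq⟩ := (hQ y z).1 h2
    refine (hQ x z).2 ⟨p.append q, fun w hw => ?_⟩
    rcases (SimpleGraph.Walk.mem_support_append_iff p q).1 hw with h | h
    · exact hp w h
    · exact hq w h
  -- representatives
  obtain ⟨rep, hrep1, hrep2⟩ : ∃ rep : F → F, (∀ x ∈ X, Q (rep x) x) ∧
      ∀ x y, Q x y → rep x = rep y := by
    refine ⟨fun x => if h : ∃ u, Q u x then Classical.choose h else x, ?_, ?_⟩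
    · intro x hx
      have h : ∃ u, Q u x := ⟨x, (hQ x x).2 ⟨SimpleGraph.Walk.nil, fun z hz => by
        rw [SimpleGraph.Walk.support_nil, List.mem_singleton] at hz
        rw [hz]
        exact hx⟩⟩
      change Q (if h : ∃ u, Q u x then Classical.choose h else x) x
      rw [dif_pos h]
      exact Classical.choose_spec h
    · intro x y hxy
      have h1 : (fun u => Q u x) = fun u => Q u y := by
        funext u
        exact propext ⟨fun h => htrans u x y h hxy, fun h => htrans u y x h (hsymm x y hxy)⟩
      have hx : ∃ u, Q u x := ⟨y, hsymm x y hxy⟩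
      have hy : ∃ u, Q u y := ⟨x, hxy⟩
      change (if h : ∃ u, Q u x then Classical.choose h else x) =
        if h : ∃ u, Q u y then Classical.choose h else y
      rw [dif_pos hx, dif_pos hy]
      have h2 : ∀ (P P' : F → Prop) (h : ∃ u, P u) (h' : ∃ u, P' u), P = P' →
          Classical.choose h = Classical.choose h' := by
        intro P P' h h' e
        subst e
        rfl
      exact h2 _ _ hx hy h1
  have hval : ∀ x, ∃ v : R, x ∈ X → ∃ p : T.Walk (rep x) x,
      (∀ z ∈ p.support, z ∈ X) ∧ ws T D p = v := by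
    intro x
    by_cases hx : x ∈ X
    · obtain ⟨p, hp⟩ := (hQ _ _).1 (hrep1 x hx)
      exact ⟨ws T D p, fun _ => ⟨p, hp, rfl⟩⟩
    · exact ⟨0, fun h => absurd h hx⟩
  choose g hg using hval
  refine ⟨g, fun x hx y hy hxy => ?_⟩
  obtain ⟨p, hp, hpv⟩ := hg x hx
  obtain ⟨q, hq, hqv⟩ := hg y hy
  have hr : rep x = rep y := by
    refine hrep2 x y ((hQ x y).2 ⟨SimpleGraph.Walk.cons hxy SimpleGraph.Walk.nil, ?_⟩)
    intro z hz
    simp only [SimpleGraph.Walk.support_cons, SimpleGraph.Walk.support_nil, List.mem_cons,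
      List.not_mem_nil, or_false] at hz
    rcases hz with rfl | rfl
    · exact hx
    · exact hy
  have h1 := hN (rep x) ((p.append (SimpleGraph.Walk.cons hxy SimpleGraph.Walk.nil)).append
    (q.reverse.copy rfl hr.symm)) (by
      intro z hz
      rcases (SimpleGraph.Walk.mem_support_append_iff _ _).1 hz with h | h
      · rcases (SimpleGraph.Walk.mem_support_append_iff _ _).1 h with h | h
        · exact hp z h
        · simp only [SimpleGraph.Walk.support_cons, SimpleGraph.Walk.support_nil, List.mem_cons,
            List.not_mem_nil, or_false] at h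
          rcases h with rfl | rfl
          · exact hx
          · exact hy
      · rw [SimpleGraph.Walk.support_copy, SimpleGraph.Walk.support_reverse,
          List.mem_reverse] at h
        exact hq z h)
  rw [ws_append, ws_append, ws_cons, ws_nil, ws_copy, ws_reverse T hS, hpv, hqv] at h1
  rw [Req]
  linear_combination h1

end Pool.Agent.H42.OLP
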